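import Pool.Agent.KS6_3.ZL.H387R3.ZT.Stmts2
import Pool.Agent.KS6_3.ZL.H525R3.FFp.Riemann
import Pool.Agent.KS6_3.ZL.H962R3.Cnt

/-! Upper bound for the number of effective divisors of degree `m`: `TaskUp`. -/

set_option autoImplicit false

open Module Pool.Agent.H525R3.FFp

namespace Pool.Agent.H107R3.ZT

noncomputable section

variable {k F : Type} [Field k] [Finite k] [Field F] [Algebra k F] [FF.IsFF k F]

theorem card_RF (P : FF.Place k F) : Nat.card P.RF = Nat.card k ^ P.deg := by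
  rw [Module.natCard_eq_pow_finrank (K := k) (V := P.RF)]
  rfl

theorem pow_RF (P : FF.Place k F) (x : P.RF) : x ^ (Nat.card k ^ P.deg) = x := by
  have hf : Finite P.RF := Module.finite_of_finite k
  have := Fintype.ofFinite P.RF
  rw [← card_RF, Nat.card_eq_fintype_card]
  exact FiniteField.pow_card x

theorem places_finite (n : ℕ) : {P : FF.Place k F | P.deg ≤ n}.Finite := by
  obtain ⟨u, hu⟩ := exists_D_ne k F
  have hut := (sep_of_D_ne hu).1
  have hne : ∀ d : ℕ, 1 ≤ d → u ^ (Nat.card k ^ d) - u ≠ 0 := by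
    intro d hd h0
    apply hut
    have hq : 1 < Nat.card k ^ d := Nat.one_lt_pow (by omega) Finite.one_lt_card
    refine ⟨Polynomial.X ^ (Nat.card k ^ d) - Polynomial.X,
      FiniteField.X_pow_card_sub_X_ne_zero k hq, by simpa using h0⟩
  refine Set.Finite.subset ((finite_support (k := k) u).union (Set.Finite.biUnion (Set.finite_Iic n)
    (fun d _ => finite_support (k := k) (u ^ (Nat.card k ^ d) - u)))) ?_
  intro P hP
  by_cases h : P.ord u ≠ 0
  · exact Or.inl h
  · right
    rw [not_not] at h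
    have hreg : P.Reg u := Or.inr h.ge
    have hreg2 : P.Reg (u ^ (Nat.card k ^ P.deg)) := Or.inr (by rw [P.ord_pow, h, mul_zero])
    have hreg3 : P.Reg (u ^ (Nat.card k ^ P.deg) - u) := by
      rw [sub_eq_add_neg]
      exact P.reg_add hreg2 (P.reg_neg hreg)
    have h1 : P.red (u ^ (Nat.card k ^ P.deg) - u) = 0 := by
      rw [P.red_sub hreg2 hreg, P.red_pow hreg, pow_RF, sub_self]
    rw [P.red_eq_zero_iff hreg3] at h1
    have h2 := h1.resolve_left (hne _ (deg_pos P))
    simp only [Set.mem_iUnion]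
    exact ⟨P.deg, hP, h2.ne'⟩

variable (k F) in
/-- effective divisors of degree `m` -/
def SS (m : ℕ) : Set (FF.Place k F →₀ ℤ) := {D | 0 ≤ D ∧ ddeg D = m}

theorem SS_finite (m : ℕ) : (SS k F m).Finite :=
  Pool.Agent.H962R3.Cnt.eff_finite (fun P : FF.Place k F => P.deg) (fun P => (deg_pos P).ne')
    places_finite m

theorem nd_apply (D : FF.Place k F →₀ ℕ) (P : FF.Place k F) : nd D P = (D P : ℤ) := by
  simp [nd]

theorem ddeg_nd (D : FF.Place k F →₀ ℕ) : ddeg (nd D) = ((D.sum fun v n => n * v.deg : ℕ) : ℤ) := by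
  unfold ddeg
  have h : nd D = D.mapRange (fun n : ℕ => (n : ℤ)) rfl := rfl
  rw [h, Finsupp.sum_mapRange_index (by intro; simp)]
  unfold Finsupp.sum
  push_cast
  rfl

theorem bnum_le (m : ℕ) : H387R3.ZT.bnum k F m ≤ (SS k F m).ncard := by
  have hfin : Finite (SS k F m) := (SS_finite m).to_subtype
  unfold H387R3.ZT.bnum
  rw [← Nat.card_coe_set_eq]
  refine Nat.card_le_card_of_injective
    (fun D => (⟨nd D.1, fun P => by rw [nd_apply]; exact Int.natCast_nonneg _, by
      rw [ddeg_nd, D.2]⟩ : SS k F m)) ?_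
  intro D E h
  apply Subtype.ext
  ext P
  have h1 : nd D.1 = nd E.1 := congrArg Subtype.val h
  have h2 := DFunLike.congr_fun h1 P
  rw [nd_apply, nd_apply] at h2
  exact_mod_cast h2

theorem card_LL (D : FF.Place k F →₀ ℤ) : Nat.card (LL D) = Nat.card k ^ (ell D).toNat := by
  rw [Module.natCard_eq_pow_finrank (K := k) (V := LL D)]
  rfl

theorem card_LL_le {m : ℕ} {D : FF.Place k F →₀ ℤ} (hD : D ∈ SS k F m) :
    Nat.card (LL D) ≤ Nat.card k ^ (ell (0 : FF.Place k F →₀ ℤ)).toNat * Nat.card k ^ m := by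
  rw [card_LL, ← pow_add]
  apply Nat.pow_le_pow_right Nat.card_pos
  have h1 := ell_le hD.1
  rw [ddeg_zero, hD.2] at h1
  have h2 := ell_nonneg D
  have h3 := ell_nonneg (0 : FF.Place k F →₀ ℤ)
  omega

theorem taskUp : H387R3.ZT.TaskUp := by
  intro k F _ _ _ _ _
  classical
  obtain ⟨γ, N, -, hN⟩ := riemann k F
  obtain ⟨P0, -⟩ := exists_place (k := k) (K := F)
  have hP0 := deg_pos P0
  -- a divisor of large degree
  let n0 : ℕ := (max N (γ + 1)).toNat
  let E0 : FF.Place k F →₀ ℤ := Finsupp.single P0 (n0 : ℤ)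
  let m0 : ℕ := n0 * P0.deg
  have hE0 : ddeg E0 = m0 := by
    rw [ddeg_single]
    push_cast
    rfl
  have hm0 : (n0 : ℤ) ≤ m0 := by
    have : n0 * 1 ≤ n0 * P0.deg := Nat.mul_le_mul_left _ hP0
    simp only [m0]
    exact_mod_cast (by omega : n0 ≤ n0 * P0.deg)
  have hn0 : max N (γ + 1) ≤ (n0 : ℤ) := Int.self_le_toNat _
  have hex : ∀ D : FF.Place k F →₀ ℤ, ddeg D = m0 → ∃ f : F, f ≠ 0 ∧ D + divisor k f ∈ SS k F m0 := by
    intro D hD
    have h1 : N ≤ ddeg D := by
      rw [hD]; exact (le_max_left _ _).trans (hn0.trans hm0)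
    have h2 : γ + 1 ≤ ddeg D := by
      rw [hD]; exact (le_max_right _ _).trans (hn0.trans hm0)
    have h3 := hN D h1
    obtain ⟨f, hf, hf0⟩ := exists_ne_zero_of_ell_pos (D := D) (by omega)
    refine ⟨f, hf0, ?_, ?_⟩
    · rw [add_comm]
      exact (mem_LL' hf0).1 hf
    · rw [ddeg_add, ddeg_divisor, hD, add_zero]
  refine ⟨Nat.card k ^ (ell (0 : FF.Place k F →₀ ℤ)).toNat * (SS k F m0).ncard, ?_⟩
  intro m
  refine (bnum_le m).trans ?_
  rcases (SS k F m).eq_empty_or_nonempty with hem | ⟨Dm, hDm⟩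
  · rw [hem, Set.ncard_empty]
    exact Nat.zero_le _
  -- the map
  have hmap : ∀ D : FF.Place k F →₀ ℤ, ∃ f : F, f ≠ 0 ∧
      (D ∈ SS k F m → D - Dm + E0 + divisor k f ∈ SS k F m0) := by
    intro D
    by_cases hD : D ∈ SS k F m
    · obtain ⟨f, hf, h⟩ := hex (D - Dm + E0) (by
        rw [ddeg_add, ddeg_sub, hD.2, hDm.2, hE0]; ring)
      exact ⟨f, hf, fun _ => h⟩
    · exact ⟨1, one_ne_zero, fun h => absurd h hD⟩
  choose f hf0 hf using hmap
  let Φ : (FF.Place k F →₀ ℤ) → (FF.Place k F →₀ ℤ) := fun D => D - Dm + E0 + divisor k (f D)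
  let s : Finset (FF.Place k F →₀ ℤ) := (SS_finite (k := k) (F := F) m).toFinset
  have hs : ∀ D, D ∈ s ↔ D ∈ SS k F m := fun D => Set.Finite.mem_toFinset _
  let t : Finset (FF.Place k F →₀ ℤ) := (SS_finite (k := k) (F := F) m0).toFinset
  have ht : ∀ D, D ∈ t ↔ D ∈ SS k F m0 := fun D => Set.Finite.mem_toFinset _
  have himg : s.image Φ ⊆ t := by
    intro G hG
    rw [Finset.mem_image] at hG
    obtain ⟨D, hD, rfl⟩ := hG
    rw [ht]
    exact hf D ((hs D).1 hD)
  have hfib : ∀ G ∈ s.image Φ, (s.filter (fun D => Φ D = G)).card ≤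
      Nat.card k ^ (ell (0 : FF.Place k F →₀ ℤ)).toNat * Nat.card k ^ m := by
    intro G hG
    rw [Finset.mem_image] at hG
    obtain ⟨D, hD, rfl⟩ := hG
    have hDS := (hs D).1 hD
    have hfinL : Finite (LL D) := Module.finite_of_finite k
    have : Fintype (LL D) := Fintype.ofFinite _
    refine le_trans ?_ (card_LL_le hDS)
    rw [Nat.card_eq_fintype_card, ← Finset.card_univ]
    refine le_trans (Finset.card_le_card ?_)
      (Finset.card_image_le (s := Finset.univ) (f := fun g : LL D => D + divisor k (g : F)))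
    intro D' hD'
    rw [Finset.mem_filter] at hD'
    obtain ⟨h1, h2⟩ := hD'
    have h1' := (hs D').1 h1
    have h3 : D' = D + divisor k (f D * (f D')⁻¹) := by
      rw [divisor_mul (hf0 D) (inv_ne_zero (hf0 D')), divisor_inv]
      simp only [Φ] at h2
      calc D' = (D' - Dm + E0 + divisor k (f D')) + Dm - E0 - divisor k (f D') := by abel
        _ = (D - Dm + E0 + divisor k (f D)) + Dm - E0 - divisor k (f D') := by rw [h2]
        _ = D + (divisor k (f D) + -divisor k (f D')) := by abel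
    have h5 : f D * (f D')⁻¹ ≠ 0 := mul_ne_zero (hf0 D) (inv_ne_zero (hf0 D'))
    rw [Finset.mem_image]
    refine ⟨⟨f D * (f D')⁻¹, ?_⟩, Finset.mem_univ _, h3.symm⟩
    rw [mem_LL' h5, add_comm, ← h3]
    exact h1'.1
  have hcard := Finset.card_le_mul_card_image (f := Φ) s _ hfib
  have h1 : (SS k F m).ncard = s.card := Set.ncard_eq_toFinset_card _ _
  have h2 : (SS k F m0).ncard = t.card := Set.ncard_eq_toFinset_card _ _
  rw [h1, h2]
  refine hcard.trans ?_
  have h3 := Finset.card_le_card himg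
  calc _ ≤ Nat.card k ^ (ell (0 : FF.Place k F →₀ ℤ)).toNat * Nat.card k ^ m * t.card :=
        Nat.mul_le_mul_left _ h3
    _ = _ := by ring

end

end Pool.Agent.H107R3.ZT
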